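import Mathlib

namespace Pool.Agent.Results.MP_b7335c_lc.Counter

open Finset

/-- An adaptive two-probe scheme on the universe `Fin m` with tables of `nA`, `nB`, `nC` bits and
position maps `pa`, `pb`, `pc` is correct for subsets of size at most two. -/
def Correct {m nA nB nC : ℕ} (pa : Fin m → Fin nA) (pb : Fin m → Fin nB) (pc : Fin m → Fin nC) :
    Prop :=
  ∀ S : Finset (Fin m), S.card ≤ 2 →
    ∃ (α : Fin nA → Bool) (β : Fin nB → Bool) (γ : Fin nC → Bool),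
      ∀ x : Fin m, ((if α (pa x) = true then γ (pc x) else β (pb x)) = true ↔ x ∈ S)

section aux

variable {X A B C : Type}

/-- A product-stable sufficient condition for correctness. -/
def Good (a : X → A) (b : X → B) (c : X → C) : Prop :=
  (∀ x y, a x = a y → b x = b y → x = y) ∧ (∀ x y, a x = a y → c x = c y → x = y) ∧
  (∀ x y z, b y = b x → c z = c x → a y = a z → a y = a x) ∧
  (∀ x1 x2 y z, b y = b x1 → a y = a x2 → c z = c x2 → a z = a x1 →
    ∀ u w, c u = c x1 → b w = b x2 → a u = a w → a x1 = a x2)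

lemma fill (a : X → A) (b : X → B) (c : X → C) (S : Set X) (P : A → Prop)
    (h1 : ∀ s ∈ S, ∀ x, ¬ P (a s) → ¬ P (a x) → b x = b s → x ∈ S)
    (h2 : ∀ s ∈ S, ∀ x, P (a s) → P (a x) → c x = c s → x ∈ S) :
    ∃ (α : A → Bool) (β : B → Bool) (γ : C → Bool),
      ∀ x : X, ((if α (a x) = true then γ (c x) else β (b x)) = true ↔ x ∈ S) := by
  classical
  refine ⟨fun t => decide (P t), fun t => decide (∃ s ∈ S, ¬ P (a s) ∧ t = b s),
    fun t => decide (∃ s ∈ S, P (a s) ∧ t = c s), fun x => ?_⟩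
  by_cases hx : P (a x)
  · simp only [hx, decide_true, if_true, decide_eq_true_eq]
    constructor
    · rintro ⟨s, hs, hp, he⟩
      exact h2 s hs x hp hx he
    · intro h
      exact ⟨x, h, hx, rfl⟩
  · simp only [hx, decide_false, Bool.false_eq_true, if_false, decide_eq_true_eq]
    constructor
    · rintro ⟨s, hs, hp, he⟩
      exact h1 s hs x hp hx he
    · intro h
      exact ⟨x, h, hx, rfl⟩

lemma mixed {a : X → A} {b : X → B} {c : X → C} (h : Good a b c) (s1 s2 y z : X)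
    (hne : a s1 ≠ a s2) (hy : b y = b s1) (hy' : a y = a s2) (hz : c z = c s2)
    (hz' : a z = a s1) :
    ∃ (α : A → Bool) (β : B → Bool) (γ : C → Bool),
      ∀ x : X, ((if α (a x) = true then γ (c x) else β (b x)) = true ↔
        x ∈ ({s1, s2} : Set X)) := by
  obtain ⟨hb, hc, -, hV⟩ := h
  have hV' := hV s1 s2 y z hy hy' hz hz'
  apply fill a b c _ (fun t => ¬ (((∃ u, a u = t ∧ c u = c s1) ∧ t ≠ a s1) ∨ t = a s2))
  · intro s hs x hp hx he
    rcases hs with rfl | rfl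
    · exfalso
      apply hp
      rintro (⟨-, h⟩ | h)
      · exact h rfl
      · exact hne h
    · rcases not_not.1 hx with ⟨⟨u, hu, hu'⟩, -⟩ | h
      · exact absurd (hV' u x hu' he hu) hne
      · right
        exact hb _ _ h he
  · intro s hs x hp hx he
    rcases hs with rfl | rfl
    · left
      by_contra hxs
      apply hx
      left
      exact ⟨⟨x, rfl, he⟩, fun h => hxs (hc _ _ h he)⟩
    · exact absurd (Or.inr rfl) hp

lemma pair {a : X → A} {b : X → B} {c : X → C} (h : Good a b c) (s1 s2 : X) :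
    ∃ (α : A → Bool) (β : B → Bool) (γ : C → Bool),
      ∀ x : X, ((if α (a x) = true then γ (c x) else β (b x)) = true ↔
        x ∈ ({s1, s2} : Set X)) := by
  have h' := h
  obtain ⟨hb, hc, hU, -⟩ := h'
  by_cases hne : a s1 = a s2
  · apply fill a b c _ (fun t => t ≠ a s1)
    · intro s hs x hp hx he
      have : x = s := hb _ _ ((not_not.1 hx).trans (not_not.1 hp).symm) he
      rw [this]; exact hs
    · intro s hs x hp hx he
      rcases hs with rfl | rfl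
      · exact absurd rfl hp
      · exact absurd hne.symm hp
  by_cases hP : (∃ y, b y = b s1 ∧ a y = a s2) ∨ (∃ y, b y = b s2 ∧ a y = a s1)
  · by_cases hQ : (∃ z, c z = c s1 ∧ a z = a s2) ∨ (∃ z, c z = c s2 ∧ a z = a s1)
    · rcases hP with ⟨y, hy, hy'⟩ | ⟨y, hy, hy'⟩ <;> rcases hQ with ⟨z, hz, hz'⟩ | ⟨z, hz, hz'⟩
      · exact absurd ((hU s1 y z hy hz (hy'.trans hz'.symm)).symm.trans hy') hne
      · exact mixed h s1 s2 y z hne hy hy' hz hz'
      · rw [Set.pair_comm]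
        exact mixed h s2 s1 y z (Ne.symm hne) hy hy' hz hz'
      · exact absurd (hy'.symm.trans (hU s2 y z hy hz (hy'.trans hz'.symm))) hne
    · apply fill a b c _ (fun t => t = a s1 ∨ t = a s2)
      · intro s hs x hp hx he
        rcases hs with rfl | rfl
        · exact absurd (Or.inl rfl) hp
        · exact absurd (Or.inr rfl) hp
      · intro s hs x hp hx he
        rcases hs with rfl | rfl
        · rcases hx with hx | hx
          · left; exact hc _ _ hx he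
          · exact absurd (Or.inl ⟨x, he, hx⟩) hQ
        · rcases hx with hx | hx
          · exact absurd (Or.inr ⟨x, he, hx⟩) hQ
          · right; exact hc _ _ hx he
  · apply fill a b c _ (fun t => ¬ (t = a s1 ∨ t = a s2))
    · intro s hs x hp hx he
      have hx := not_not.1 hx
      rcases hs with rfl | rfl
      · rcases hx with hx | hx
        · left; exact hb _ _ hx he
        · exact absurd (Or.inl ⟨x, he, hx⟩) hP
      · rcases hx with hx | hx
        · exact absurd (Or.inr ⟨x, he, hx⟩) hP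
        · right; exact hb _ _ hx he
    · intro s hs x hp hx he
      rcases hs with rfl | rfl
      · exact absurd (Or.inl rfl) hp
      · exact absurd (Or.inr rfl) hp

lemma correct_of_good {m nA nB nC : ℕ} {pa : Fin m → Fin nA} {pb : Fin m → Fin nB}
    {pc : Fin m → Fin nC} (h : Good pa pb pc) : Correct pa pb pc := by
  intro S hS
  have h3 : S.card = 0 ∨ S.card = 1 ∨ S.card = 2 := by omega
  rcases h3 with h0 | h1 | h2
  · rw [card_eq_zero.1 h0]
    exact ⟨fun _ => false, fun _ => false, fun _ => false, fun x => by simp⟩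
  · obtain ⟨s, rfl⟩ := card_eq_one.1 h1
    obtain ⟨α, β, γ, H⟩ := pair h s s
    exact ⟨α, β, γ, fun x => by rw [H x]; simp⟩
  · obtain ⟨s1, s2, -, rfl⟩ := card_eq_two.1 h2
    obtain ⟨α, β, γ, H⟩ := pair h s1 s2
    exact ⟨α, β, γ, fun x => by rw [H x]; simp⟩

lemma Good.pull {X' A' B' C' : Type} {a : X → A} {b : X → B} {c : X → C} (h : Good a b c)
    (f : X' → X) (hf : Function.Injective f) (a' : X' → A') (b' : X' → B') (c' : X' → C')
    (ha : ∀ x y, a' x = a' y ↔ a (f x) = a (f y)) (hb : ∀ x y, b' x = b' y ↔ b (f x) = b (f y))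
    (hc : ∀ x y, c' x = c' y ↔ c (f x) = c (f y)) : Good a' b' c' := by
  obtain ⟨h1, h2, h3, h4⟩ := h
  unfold Good
  simp only [ha, hb, hc]
  exact ⟨fun x y p q => hf (h1 _ _ p q), fun x y p q => hf (h2 _ _ p q),
    fun x y z => h3 _ _ _, fun x1 x2 y z p q r s u w => h4 _ _ _ _ p q r s _ _⟩

lemma Good.pow {a : X → A} {b : X → B} {c : X → C} (h : Good a b c) (k : ℕ) :
    Good (fun (x : Fin k → X) i => a (x i)) (fun (x : Fin k → X) i => b (x i))
      (fun (x : Fin k → X) i => c (x i)) := by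
  obtain ⟨h1, h2, h3, h4⟩ := h
  refine ⟨fun x y p q => funext fun i => h1 _ _ (congrFun p i) (congrFun q i),
    fun x y p q => funext fun i => h2 _ _ (congrFun p i) (congrFun q i),
    fun x y z p q r => funext fun i => h3 _ _ _ (congrFun p i) (congrFun q i) (congrFun r i),
    fun x1 x2 y z p q r s u w t1 t2 t3 => funext fun i =>
      h4 _ _ _ _ (congrFun p i) (congrFun q i) (congrFun r i) (congrFun s i) _ _
        (congrFun t1 i) (congrFun t2 i) (congrFun t3 i)⟩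

lemma Good.bal {a : X → A} {b : X → B} {c : X → C} (h : Good a b c) (P Q R : Type) :
    Good (fun x : X × P × Q × R => (a x.1, x.2.1, x.2.2.1))
      (fun x : X × P × Q × R => (b x.1, x.2.1, x.2.2.2))
      (fun x : X × P × Q × R => (c x.1, x.2.2.1, x.2.2.2)) := by
  obtain ⟨h1, h2, h3, h4⟩ := h
  refine ⟨?_, ?_, ?_, ?_⟩
  · rintro ⟨x, p, q, r⟩ ⟨x', p', q', r'⟩ e1 e2
    simp only [Prod.mk.injEq] at e1 e2 ⊢
    exact ⟨h1 _ _ e1.1 e2.1, e1.2.1, e1.2.2, e2.2.2⟩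
  · rintro ⟨x, p, q, r⟩ ⟨x', p', q', r'⟩ e1 e2
    simp only [Prod.mk.injEq] at e1 e2 ⊢
    exact ⟨h2 _ _ e1.1 e2.1, e1.2.1, e1.2.2, e2.2.2⟩
  · intro x y z e1 e2 e3
    simp only [Prod.mk.injEq] at e1 e2 e3 ⊢
    exact ⟨h3 _ _ _ e1.1 e2.1 e3.1, e1.2.1, e3.2.2.trans e2.2.1⟩
  · intro x1 x2 y z e1 e2 e3 e4 u w e5 e6 e7
    simp only [Prod.mk.injEq] at e1 e2 e3 e4 e5 e6 e7 ⊢
    exact ⟨h4 _ _ _ _ e1.1 e2.1 e3.1 e4.1 _ _ e5.1 e6.1 e7.1, e1.2.1.symm.trans e2.2.1,
      e4.2.2.symm.trans e3.2.1⟩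

lemma scheme [Fintype X] [Fintype A] [Fintype B] [Fintype C] {a : X → A} {b : X → B} {c : X → C}
    (h : Good a b c) :
    ∃ (pa : Fin (Fintype.card X) → Fin (Fintype.card A))
      (pb : Fin (Fintype.card X) → Fin (Fintype.card B))
      (pc : Fin (Fintype.card X) → Fin (Fintype.card C)), Correct pa pb pc := by
  refine ⟨fun x => Fintype.equivFin A (a ((Fintype.equivFin X).symm x)),
    fun x => Fintype.equivFin B (b ((Fintype.equivFin X).symm x)),
    fun x => Fintype.equivFin C (c ((Fintype.equivFin X).symm x)), correct_of_good ?_⟩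
  exact h.pull _ (Fintype.equivFin X).symm.injective _ _ _ (fun x y => by simp)
    (fun x y => by simp) (fun x y => by simp)

lemma proj [Fintype A] [DecidableEq A] (Y : Finset X) (a : X → A) (μ : A → ℕ) (i : ℕ)
    (h : ∀ x ∈ Y, 2 ^ i ≤ μ (a x)) : (Y.image a).card * (2 ^ i) ^ 2 ≤ ∑ t, μ t ^ 2 := by
  calc (Y.image a).card * (2 ^ i) ^ 2 = ∑ _t ∈ Y.image a, (2 ^ i) ^ 2 := by simp
    _ ≤ ∑ t ∈ Y.image a, μ t ^ 2 := by
      apply sum_le_sum
      intro t ht
      obtain ⟨x, hx, rfl⟩ := mem_image.1 ht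
      exact Nat.pow_le_pow_left (h x hx) 2
    _ ≤ ∑ t, μ t ^ 2 := sum_le_sum_of_subset (subset_univ _)

lemma dyadic [Fintype X] [Fintype A] [Fintype B] [Fintype C] [DecidableEq A] [DecidableEq B]
    [DecidableEq C] (a : X → A) (b : X → B) (c : X → C) (μ : A → ℕ) (ν : B → ℕ) (ω : C → ℕ)
    (L : ℕ) (hL : 0 < L) (hμ : ∀ t, 0 < μ t ∧ μ t < 2 ^ L) (hν : ∀ t, 0 < ν t ∧ ν t < 2 ^ L)
    (hω : ∀ t, 0 < ω t ∧ ω t < 2 ^ L) (hX : Nonempty X) :
    ∃ Y : Finset X, Y.Nonempty ∧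
      (∑ x, μ (a x) * ν (b x) * ω (c x)) ^ 2 *
          ((Y.image a).card * (Y.image b).card * (Y.image c).card) ≤
        64 * L ^ 6 * Y.card ^ 2 * ((∑ t, μ t ^ 2) * (∑ t, ν t ^ 2) * (∑ t, ω t ^ 2)) := by
  classical
  set W : ℕ := ∑ x, μ (a x) * ν (b x) * ω (c x) with hW
  have hWpos : 0 < W := by
    apply sum_pos _ univ_nonempty
    intro x _
    exact Nat.mul_pos (Nat.mul_pos (hμ _).1 (hν _).1) (hω _).1
  let f : X → ℕ × ℕ × ℕ := fun x => (Nat.log 2 (μ (a x)), Nat.log 2 (ν (b x)), Nat.log 2 (ω (c x)))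
  let T : Finset (ℕ × ℕ × ℕ) := range L ×ˢ range L ×ˢ range L
  have hT : T.card = L ^ 3 := by simp [T]; ring
  have hf : ∀ x ∈ (univ : Finset X), f x ∈ T := by
    intro x _
    simp only [T, f, mem_product, mem_range]
    exact ⟨Nat.log_lt_of_lt_pow (hμ _).1.ne' (hμ _).2, Nat.log_lt_of_lt_pow (hν _).1.ne' (hν _).2,
      Nat.log_lt_of_lt_pow (hω _).1.ne' (hω _).2⟩
  have hTne : T.Nonempty := by
    rw [← card_pos, hT]; positivity
  have hL3 : (0 : ℚ) < (L : ℚ) ^ 3 := by positivity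
  obtain ⟨⟨i, j, l⟩, -, hy⟩ := exists_le_sum_fiber_of_maps_to_of_nsmul_le_sum
    (w := fun x => ((μ (a x) * ν (b x) * ω (c x) : ℕ) : ℚ)) (b := (W : ℚ) / (L : ℚ) ^ 3) hf hTne
    (by
      rw [hT, nsmul_eq_mul, hW]
      push_cast
      rw [mul_div_cancel₀ _ hL3.ne'])
  set Y := univ.filter (fun x => f x = (i, j, l)) with hY
  have hYm : ∀ x ∈ Y, Nat.log 2 (μ (a x)) = i ∧ Nat.log 2 (ν (b x)) = j ∧
      Nat.log 2 (ω (c x)) = l := by
    intro x hx
    have := (mem_filter.1 hx).2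
    simpa [f] using this
  have h1 : W ≤ L ^ 3 * ∑ x ∈ Y, μ (a x) * ν (b x) * ω (c x) := by
    rw [div_le_iff₀ hL3] at hy
    rw [mul_comm]
    exact_mod_cast hy
  have h2 : ∑ x ∈ Y, μ (a x) * ν (b x) * ω (c x) ≤ Y.card * (8 * (2 ^ i * 2 ^ j * 2 ^ l)) := by
    rw [← smul_eq_mul]
    apply sum_le_card_nsmul
    intro x hx
    obtain ⟨e1, e2, e3⟩ := hYm x hx
    have g1 := Nat.lt_pow_succ_log_self (b := 2) (by norm_num) (μ (a x))
    have g2 := Nat.lt_pow_succ_log_self (b := 2) (by norm_num) (ν (b x))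
    have g3 := Nat.lt_pow_succ_log_self (b := 2) (by norm_num) (ω (c x))
    rw [e1] at g1; rw [e2] at g2; rw [e3] at g3
    calc μ (a x) * ν (b x) * ω (c x) ≤ 2 ^ i.succ * 2 ^ j.succ * 2 ^ l.succ := by gcongr
      _ = _ := by simp only [Nat.succ_eq_add_one, pow_succ]; ring
  have p1 := proj Y a μ i (fun x hx => by
    rw [← (hYm x hx).1]; exact Nat.pow_log_le_self 2 (hμ _).1.ne')
  have p2 := proj Y b ν j (fun x hx => by
    rw [← (hYm x hx).2.1]; exact Nat.pow_log_le_self 2 (hν _).1.ne')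
  have p3 := proj Y c ω l (fun x hx => by
    rw [← (hYm x hx).2.2]; exact Nat.pow_log_le_self 2 (hω _).1.ne')
  have h3 : W ≤ L ^ 3 * (Y.card * (8 * (2 ^ i * 2 ^ j * 2 ^ l))) :=
    h1.trans (Nat.mul_le_mul_left _ h2)
  refine ⟨Y, ?_, ?_⟩
  · rw [← card_pos]
    by_contra h0
    have : Y.card = 0 := by omega
    rw [this] at h3
    omega
  · calc W ^ 2 * ((Y.image a).card * (Y.image b).card * (Y.image c).card)
        ≤ (L ^ 3 * (Y.card * (8 * (2 ^ i * 2 ^ j * 2 ^ l)))) ^ 2 *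
          ((Y.image a).card * (Y.image b).card * (Y.image c).card) := by gcongr
      _ = 64 * L ^ 6 * Y.card ^ 2 * (((Y.image a).card * (2 ^ i) ^ 2) *
          ((Y.image b).card * (2 ^ j) ^ 2) * ((Y.image c).card * (2 ^ l) ^ 2)) := by ring
      _ ≤ _ := by gcongr

end aux

def a0 : Fin 9 → Fin 4 := ![2, 3, 1, 3, 0, 3, 2, 0, 1]
def b0 : Fin 9 → Fin 5 := ![4, 0, 2, 3, 3, 1, 0, 2, 3]
def c0 : Fin 9 → Fin 5 := ![0, 3, 3, 2, 4, 0, 4, 0, 1]
def μ0 : Fin 4 → ℕ := ![4, 2, 2, 5]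
def ν0 : Fin 5 → ℕ := ![3, 3, 3, 4, 1]
def ω0 : Fin 5 → ℕ := ![4, 1, 3, 3, 3]

lemma good0 : Good a0 b0 c0 := by
  refine ⟨by decide, by decide, by decide, by decide +kernel⟩

lemma powsum {A : Type} [Fintype A] [DecidableEq A] (g : A → ℕ) (k : ℕ) :
    ∑ t : Fin k → A, ∏ i, g (t i) = (∑ t, g t) ^ k := by
  rw [← Fintype.piFinset_univ, ← Finset.prod_univ_sum]
  simp

lemma bnd {A : Type} (g : A → ℕ) (hg : ∀ t, 0 < g t ∧ g t ≤ 8) (k : ℕ) (t : Fin k → A) :
    0 < ∏ i, g (t i) ∧ ∏ i, g (t i) < 2 ^ (3 * k + 1) := by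
  refine ⟨prod_pos fun i _ => (hg _).1, ?_⟩
  have : ∏ i, g (t i) ≤ 8 ^ k := by
    have := prod_le_pow_card univ (fun i => g (t i)) 8 (fun i _ => (hg _).2)
    simpa using this
  have h2 : 2 ^ (3 * k + 1) = 8 ^ k * 2 := by rw [pow_succ, pow_mul]; norm_num
  have h3 : 0 < 8 ^ k := by positivity
  omega

lemma grow (K : ℕ) : ∃ k : ℕ, K * (64 * (3 * k + 1) ^ 6 * 94864 ^ k) ≤ 97969 ^ k := by
  have h := tendsto_pow_const_mul_const_pow_of_abs_lt_one 6 (r := (94864 : ℝ) / 97969)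
    (by rw [abs_of_pos (by norm_num)]; norm_num)
  have hpos : (0 : ℝ) < 1 / ((K + 1) * 64 * 4 ^ 6) := by positivity
  have h2 := (h.eventually (gt_mem_nhds hpos)).and (Filter.eventually_ge_atTop 1)
  obtain ⟨k, hk, hk1⟩ := h2.exists
  refine ⟨k, ?_⟩
  rw [div_pow, ← mul_div_assoc, div_lt_div_iff₀ (by positivity) (by positivity)] at hk
  have hk' : (1 : ℝ) ≤ k := by exact_mod_cast hk1
  have : (K : ℝ) * (64 * (3 * k + 1) ^ 6 * 94864 ^ k) ≤ 97969 ^ k := by
    calc (K : ℝ) * (64 * (3 * k + 1) ^ 6 * 94864 ^ k)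
        ≤ (K + 1) * (64 * (4 * k) ^ 6 * 94864 ^ k) := by
          gcongr
          · linarith
          · linarith
      _ = (k : ℝ) ^ 6 * 94864 ^ k * ((K + 1) * 64 * 4 ^ 6) := by ring
      _ ≤ _ := by linarith
  exact_mod_cast this

lemma main (K : ℕ) : ∃ m s : ℕ, 0 < s ∧ K * s ^ 3 ≤ m ^ 2 ∧
    ∃ (pa pb pc : Fin m → Fin s), Correct pa pb pc := by
  classical
  obtain ⟨k, hk⟩ := grow K
  have hg := good0.pow k
  obtain ⟨Y, hYne, hY⟩ := dyadic (fun (x : Fin k → Fin 9) i => a0 (x i))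
    (fun (x : Fin k → Fin 9) i => b0 (x i)) (fun (x : Fin k → Fin 9) i => c0 (x i))
    (fun t => ∏ i, μ0 (t i)) (fun t => ∏ i, ν0 (t i)) (fun t => ∏ i, ω0 (t i)) (3 * k + 1)
    (by omega) (bnd μ0 (by decide) k) (bnd ν0 (by decide) k) (bnd ω0 (by decide) k)
    ⟨fun _ => 0⟩
  simp only [← prod_mul_distrib, ← prod_pow] at hY
  rw [powsum (fun x => μ0 (a0 x) * ν0 (b0 x) * ω0 (c0 x)), powsum (fun t => μ0 t ^ 2),
    powsum (fun t => ν0 t ^ 2), powsum (fun t => ω0 t ^ 2)] at hY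
  have e1 : ∑ x, μ0 (a0 x) * ν0 (b0 x) * ω0 (c0 x) = 313 := by decide
  have e2 : ∑ t, μ0 t ^ 2 = 49 := by decide
  have e3 : ∑ t, ν0 t ^ 2 = 44 := by decide
  have e4 : ∑ t, ω0 t ^ 2 = 44 := by decide
  rw [e1, e2, e3, e4, ← mul_pow, ← mul_pow, ← pow_mul, mul_comm k 2, pow_mul] at hY
  norm_num at hY
  set a := fun (x : Fin k → Fin 9) i => a0 (x i) with ha
  set b := fun (x : Fin k → Fin 9) i => b0 (x i) with hb
  set c := fun (x : Fin k → Fin 9) i => c0 (x i) with hc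
  set nA := (Y.image a).card with hnA
  set nB := (Y.image b).card with hnB
  set nC := (Y.image c).card with hnC
  have hKY : K * (nA * nB * nC) ≤ Y.card ^ 2 := by
    have hD : 0 < 64 * (3 * k + 1) ^ 6 * 94864 ^ k := by positivity
    apply Nat.le_of_mul_le_mul_left _ hD
    calc 64 * (3 * k + 1) ^ 6 * 94864 ^ k * (K * (nA * nB * nC))
        = K * (64 * (3 * k + 1) ^ 6 * 94864 ^ k) * (nA * nB * nC) := by ring
      _ ≤ 97969 ^ k * (nA * nB * nC) := by gcongr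
      _ ≤ _ := hY
      _ = _ := by ring
  have hg2 : Good (fun x : Y => (⟨a x, mem_image_of_mem a x.2⟩ : Y.image a))
      (fun x : Y => (⟨b x, mem_image_of_mem b x.2⟩ : Y.image b))
      (fun x : Y => (⟨c x, mem_image_of_mem c x.2⟩ : Y.image c)) :=
    hg.pull (fun x : Y => x.1) Subtype.val_injective _ _ _ (fun x y => Subtype.ext_iff)
      (fun x y => Subtype.ext_iff) (fun x y => Subtype.ext_iff)
  have hs := scheme (hg2.bal (Fin nC) (Fin nB) (Fin nA))
  have c1 : Fintype.card (Y.image a × Fin nC × Fin nB) = nA * nB * nC := by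
    simp only [Fintype.card_prod, Fintype.card_coe, Fintype.card_fin, ← hnA]; ring
  have c2 : Fintype.card (Y.image b × Fin nC × Fin nA) = nA * nB * nC := by
    simp only [Fintype.card_prod, Fintype.card_coe, Fintype.card_fin, ← hnB]; ring
  have c3 : Fintype.card (Y.image c × Fin nB × Fin nA) = nA * nB * nC := by
    simp only [Fintype.card_prod, Fintype.card_coe, Fintype.card_fin, ← hnC]; ring
  have c4 : Fintype.card (Y × Fin nC × Fin nB × Fin nA) = Y.card * (nA * nB * nC) := by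
    simp only [Fintype.card_prod, Fintype.card_coe, Fintype.card_fin]; ring
  rw [c1, c2, c3, c4] at hs
  refine ⟨_, nA * nB * nC, ?_, ?_, hs⟩
  · exact Nat.mul_pos (Nat.mul_pos (hYne.image a).card_pos (hYne.image b).card_pos)
      (hYne.image c).card_pos
  · calc K * (nA * nB * nC) ^ 3 = K * (nA * nB * nC) * (nA * nB * nC) ^ 2 := by ring
      _ ≤ Y.card ^ 2 * (nA * nB * nC) ^ 2 := by gcongr
      _ = _ := by ring

theorem result : ∀ c : ℝ, 0 < c → ∀ N : ℕ, ∃ m : ℕ, N ≤ m ∧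
    ∃ (nA nB nC : ℕ) (pa : Fin m → Fin nA) (pb : Fin m → Fin nB) (pc : Fin m → Fin nC),
      Correct pa pb pc ∧ ((nA + nB + nC : ℕ) : ℝ) < c * (m : ℝ) ^ ((2 : ℝ) / 3) := by
  intro c hc N
  obtain ⟨K0, hK0⟩ := exists_nat_gt (27 / c ^ 3)
  obtain ⟨m, s, hs, hm, pa, pb, pc, h⟩ := main (K0 + N ^ 2)
  have hs3 : 1 ≤ s ^ 3 := Nat.one_le_pow _ _ hs
  refine ⟨m, ?_, s, s, s, pa, pb, pc, h, ?_⟩
  · have : N ^ 2 ≤ m ^ 2 := by nlinarith
    exact (Nat.pow_le_pow_iff_left (by norm_num)).1 this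
  · have h1 : (K0 : ℝ) * (s : ℝ) ^ 3 ≤ (m : ℝ) ^ 2 := by
      have : K0 * s ^ 3 ≤ m ^ 2 := by nlinarith
      exact_mod_cast this
    have hs' : (0 : ℝ) < s := by exact_mod_cast hs
    apply lt_of_pow_lt_pow_left₀ 3 (by positivity)
    rw [mul_pow, ← Real.rpow_natCast ((m : ℝ) ^ ((2 : ℝ) / 3)) 3, ← Real.rpow_mul (by positivity)]
    have e : (2 : ℝ) / 3 * (3 : ℕ) = (2 : ℕ) := by norm_num
    rw [e, Real.rpow_natCast]
    rw [div_lt_iff₀ (by positivity)] at hK0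
    push_cast
    calc ((s : ℝ) + s + s) ^ 3 = 27 * (s : ℝ) ^ 3 := by ring
      _ < K0 * c ^ 3 * (s : ℝ) ^ 3 := by gcongr
      _ = c ^ 3 * (K0 * (s : ℝ) ^ 3) := by ring
      _ ≤ _ := by gcongr

end Pool.Agent.Results.MP_b7335c_lc.Counter
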